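import Pool.Agent.H92.ZO.StepN

/-!
# Any single step `F^s`, `s ≥ 1`: powers of algebraic equivalence, one class, and finiteness

`𝒱` is a class of smooth projective geometrically irreducible varieties over the field `k` closed
under products (for example all of them), `C` the Chow groups with rational coefficients (in the
form of their formal properties, `IsChowProj`) and `H` a Weil cohomology theory (`IsWeilProj`).
`Rat` is a class of varieties (for example the rational varieties) which contains, for every `X` and
all large `m`, the blow-up of the projective space of dimension `2 m` along `X`, and is closed under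
the product with `P = P^1 × P^1`. For `V` in `Rat`, of dimension `2 m`, let `t V ∈ CH^m(V)` be a class
which is not numerically trivial, for instance the pull-back of the class of a linear subspace. Let
`𝒯` be a class of curves, for example all curves or only one curve, and let `s ≥ 1`.
`ProductCycle C 𝒯 s Y y` means: `Y = T_1 × ⋯ × T_s` is a product of `s` curves in `𝒯` and
`y = c_1 × ⋯ × c_s` with zero-cycles `c_j` of degree zero on `T_j`.

1. The following are equivalent.
   * For all `X`, all Chow-Kunneth decompositions of `X` and all `i` the classes
     `Γ_* (c_1 × ⋯ × c_s)` with `Γ ∈ CH^i(T_1 × ⋯ × T_s × X)` are in `F^s CH^i(X)`. If `𝒯` is the class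
     of all curves: `F^s CH^i(X)` contains the `s`-th power of algebraic equivalence.
   * For infinitely many `m`: for all `V` in `Rat` of dimension `2 m` and all `c_1 × ⋯ × c_s` on
     `Y = T_1 × ⋯ × T_s`, the class `t V × c_1 × ⋯ × c_s` is in `F^s CH^(m+s)(V × Y)` for all
     *self-dual* decompositions of `V × Y`.
2. They hold if for infinitely many `m`, for all `V` in `Rat` of dimension `2 m` and all `Y`, there
   are only finitely many subgroups `F^s CH^(m+s)(V × Y)`, for the self-dual decompositions of
   `V × Y`. So they hold if the subgroups `F^s CH^i(X)` do not depend on the decomposition, or if there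
   are only finitely many of them for each `X` and `i`.
3. If for every class `z ≠ 0` on a variety `X` there are a curve `T` in `𝒯` and a zero-cycle `c` of
   degree zero on `T` with `z × c ≠ 0` (the theorem of Schoen on exterior products, for `k` a universal
   domain, e.g. `k = ℂ`, and all curves), then they are equivalent to a positive answer to Murre's
   question for all `X`, `i` and `n`: the subgroups `F^n CH^i(X)` do not depend on the decomposition.

So, for `k = ℂ` and any `s ≥ 1`, the independence of the single step `F^s` for all varieties, or even
the finiteness of the number of the `F^s CH^i(X)`, for each `X` and `i`, implies the independence of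
all the steps. It is not assumed that Chow-Kunneth decompositions exist.

Idea. Let `z ∈ CH^i(X)` be in the image of `π b`, `b > 2 i`. The blow-up formula, and the product
with `P^1 × P^1`, move `z` to such a class `β` on a variety `V` in `Rat`, in the middle codimension,
for a self-dual decomposition `σ` of `V`. The Eichler transformations attached to the multiples of `β`
change `σ`, and the steps `F^s CH^(m+s)(V × Y)` of the products of the new decompositions with a
self-dual decomposition of `Y`, for which `y = c_1 × ⋯ × c_s` has weight `s`, detect `β × y`: if
`t V × y` lies in all of them, or if there are finitely many of them, then `β × y = 0`. So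
`z × y = 0` for all `X`, all `z` of too large weight, and all `y`. If `Γ ∈ CH^i(Y × X)` and `b` is too
large then the component of weight `(s, b)` of `Γ` is such a class on `Y × X`, and
`π b (Γ_* y) = 0` follows by restriction to the graph of the projection. In 3, `z × y = 0` for all `y`
gives `z = 0`, so `F^0 CH^i(X) = CH^i(X)` for all `X`, which implies the independence of all the
steps.
-/

open CategoryTheory AlgebraicGeometry

set_option autoImplicit false

universe u v w

namespace Pool.Agent.Results.MP_10f4af_ag.AnyStepDecides

open Pool.Agent.H914 Pool.Agent.W492.BB Pool.Agent.TH133 Pool.Agent.H92.ZO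

/-- For every `s ≥ 1`: one class on the products of rational varieties with `s` curves decides
whether the `s`-th power of algebraic equivalence (or the part of it which is parametrised by a class
`𝒯` of curves) is contained in the step `F^s`, and finiteness of the number of the subgroups `F^s`
suffices. By the theorem of Schoen it is then equivalent to the independence of all the steps. -/
theorem result {k : Type u} [Field k] {𝒱 : VarClass k} (C : TheoryData.{u, v, 0} 𝒱 ℚ)
    [IsChowProj C] {K : Type w} [Field K] (H : WeilTheoryData.{u, v, w} C K) [IsWeilProj H]
    (Rat : 𝒱.Obj → Prop) (P : 𝒱.Obj) (hR : IsRationalClass C Rat P) (t : ∀ V : 𝒱.Obj, C.A V)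
    (ht : ∀ V m, Rat V → V.dim = 2 * m → NumNontrivial H m (t V)) (𝒯 : 𝒱.Obj → Prop) (s : ℕ)
    (hs : 1 ≤ s) :
    (PowersInSteps H 𝒯 s ↔
      ForRational Rat fun m V => ∀ (Y : 𝒱.Obj) (y : C.A Y), ProductCycle C 𝒯 s Y y →
        TestClass H (m + s) s (V.prod Y) (C.ext (t V) y)) ∧
    ((ForRational Rat fun m V => ∀ (Y : 𝒱.Obj) (y : C.A Y), ProductCycle C 𝒯 s Y y →
        (selfDualSteps H (V.prod Y) (m + s) s).Finite) → PowersInSteps H 𝒯 s) ∧
    (NonzeroProducts C 𝒯 → (PowersInSteps H 𝒯 s ↔ ∀ X : 𝒱.Obj, MurreC H X)) :=
  any_step hR t ht 𝒯 s hs

end Pool.Agent.Results.MP_10f4af_ag.AnyStepDecides
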