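import Pool.Agent.H92.ZO.Main2

/-!
# Murre's question for all varieties is decided by one cycle class on rational varieties

`𝒱` is a class of smooth projective geometrically irreducible varieties over the field `k` closed
under products (for example all of them), `C` the Chow groups with rational coefficients (in the
form of their formal properties, `IsChowProj`) and `H` a Weil cohomology theory (`IsWeilProj`).
`Rat` is a class of varieties (for example the rational varieties, which can be obtained from
projective spaces by blow-ups and products) which contains, for every `X` and all large `m`, the
blow-up of the projective space of dimension `2 m` along `X`, and is closed under the product with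
`P = P^1 × P^1`. For every `V` in `Rat`, of dimension `2 m`, let `t V ∈ CH^m(V)` be a class which is
not numerically trivial, for instance the pull-back of the class of a linear subspace, or `h^m` for an
ample class `h`. The following are equivalent.

1. The answer to Murre's question is positive: for all `X`, `i` and `n` the subgroup `F^n CH^i(X)`
   does not depend on the Chow-Kunneth decomposition of `X`.
2. For infinitely many `m`: for all `V` in `Rat` of dimension `2 m` the subgroup `F^0 CH^m(V)` does
   not change when the decomposition is changed by an elementary move (a product cycle `y × z`,
   `y, z ∈ CH^m(V)`, is added to `π (2 m)` and subtracted from `π b`, for one `b > 2 m`).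
3. For infinitely many `m`: for all `V` in `Rat` of dimension `2 m` and all *self-dual*
   decompositions of `V`, the *one* class `t V` belongs to `F^0 CH^m(V)`.
4. For infinitely many `m`: for all `V` in `Rat` of dimension `2 m` there are only finitely many
   subgroups `F^0 CH^m(V)`, for the self-dual decompositions of `V`.

It is not assumed that Chow-Kunneth decompositions exist.

Idea. By the zero-one law (which holds for one variety `V`; for self-dual decompositions it uses
Eichler transformations) the statements 2, 3 and 4 all imply `F^0 CH^m(V) = CH^m(V)` for the
self-dual decompositions. Let `z ∈ CH^i(Y)`, `dim Y = 2 i`, be a class in the image of `π j`,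
`j > 2 i`. By the blow-up formula it gives such a class on a blow-up `V` of dimension `2 m - 2`, in
the middle codimension, and then on `V × P` for a self-dual decomposition of `V × P`. So `z = 0`. For
`Y = X × X` and the decompositions `dual π ⊗ π'` this gives `π' m ∘ π j = 0` for `j < m`, which is
the independence of the filtration.
-/

open CategoryTheory AlgebraicGeometry

set_option autoImplicit false

universe u v w

namespace Pool.Agent.Results.MP_10f4af_ag.OneClassOnRationalVarieties

open Pool.Agent.H914 Pool.Agent.W492.BB Pool.Agent.TH133 Pool.Agent.H92.ZO

/-- Murre's question for all varieties is equivalent to a statement on one cycle class on rational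
varieties, and to a finiteness statement for rational varieties. -/
theorem result {k : Type u} [Field k] {𝒱 : VarClass k} (C : TheoryData.{u, v, 0} 𝒱 ℚ)
    [IsChowProj C] {K : Type w} [Field K] (H : WeilTheoryData.{u, v, w} C K) [IsWeilProj H]
    (Rat : 𝒱.Obj → Prop) (P : 𝒱.Obj) (hR : IsRationalClass C Rat P) (t : ∀ V : 𝒱.Obj, C.A V)
    (ht : ∀ V m, Rat V → V.dim = 2 * m → NumNontrivial H m (t V)) :
    List.TFAE [∀ X : 𝒱.Obj, MurreC H X,
      ForRational Rat (MovesAgree H),
      ForRational Rat fun m V => TestClass H m 0 V (t V),
      ForRational Rat fun m V => (selfDualSteps H V m 0).Finite] :=
  zero_step hR t ht

end Pool.Agent.Results.MP_10f4af_ag.OneClassOnRationalVarieties
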