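import Pool.Agent.H92.ZO.Unip

/-!
# The filtrations `F^n CH^i(X)` of one variety: one or infinitely many, and two canonical ones

`𝒱` is a class of smooth projective geometrically irreducible varieties over the field `k` closed
under products (for example all of them), `C` the Chow groups with rational coefficients (in the
form of their formal properties, `IsChowProj`) and `H` a Weil cohomology theory (`IsWeilProj`); `X`
is one variety of the class.

1. The sum `F_max^n CH^i(X)` and the intersection `F_min^n CH^i(X)` of the `F^n CH^i(X)` for all the
   Chow-Kunneth decompositions are preserved by all self-correspondences of degree zero, for all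
   `i` and `n`. (The conjecture says that they are equal.)
2. If the homologically trivial self-correspondences of `X` are nilpotent (for example if the motive
   of `X` is finite-dimensional in the sense of Kimura) then, for all `i` and `n`, there are either
   one or infinitely many subgroups `F^n CH^i(X)`: if there are only finitely many of them then they
   are all equal (and equal to `F_max^n` and `F_min^n`).

Idea. In part 2 any two decompositions are conjugate by a unipotent correspondence `1 + ν`. The
conjugates of `π` by the powers `(1 + ν)^m`, `m ∈ ℕ`, are decompositions. If they give only finitely
many subgroups then some power `(1 + ν)^k`, `k > 0`, maps `F^n CH^i(X)` to itself; as `ν` is nilpotent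
then so does `1 + ν`. In part 1 a self-correspondence is written as the sum of its components
`π b ∘ γ ∘ π a`, and for `a ≠ b` the decomposition is conjugated by `1 + π b ∘ γ ∘ π a`.
-/

open CategoryTheory AlgebraicGeometry

set_option autoImplicit false

universe u v w

namespace Pool.Agent.Results.MP_10f4af_ag.OneOrInfinitelyMany

open Pool.Agent.H914 Pool.Agent.W492.BB Pool.Agent.TH133 Pool.Agent.H92.ZO

/-- The canonical filtrations, and the number of the filtrations, for one variety. -/
theorem result {k : Type u} [Field k] {𝒱 : VarClass k} (C : TheoryData.{u, v, 0} 𝒱 ℚ)
    [IsChowProj C] {K : Type w} [Field K] (H : WeilTheoryData.{u, v, w} C K) [IsWeilProj H]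
    (X : 𝒱.Obj) : StableSteps H X ∧ (HomNilpotent H X → OneOrInfinite H X) :=
  ⟨fun _ hγ i n _ => ⟨maxStep_stable hγ i n, minStep_stable hγ i n⟩,
    fun hN i n hfin _ _ hπ hπ' => one_or_infinite hN i n hfin hπ hπ'⟩

end Pool.Agent.Results.MP_10f4af_ag.OneOrInfinitelyMany
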