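import Pool.Agent.H92.ZO.Unip

/-!
# The filtrations `F^0 CH^i(X)`: a zero-one law

`𝒱` is a class of smooth projective geometrically irreducible varieties over the field `k` closed
under products (for example all of them), `C` the Chow groups with rational coefficients (in the
form of their formal properties, `IsChowProj`) and `H` a Weil cohomology theory (`IsWeilProj`); `X`
is **one** variety of the class. Nothing is assumed about its motive.

Let `x ∈ CH^i(X)` be any class which is not numerically trivial, for instance the `i`-th power of the
class of an ample divisor. The following are equivalent: (a) `F^0 CH^i(X)` does not depend on the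
Chow-Kunneth decomposition; (b) it does not change under elementary moves of the decomposition,
which add a product cycle `y × z` to `π (2 i)` and subtract it from `π b`, for one `b > 2 i`; (c) the
one class `x` belongs to `F^0 CH^i(X)` for all Chow-Kunneth decompositions; (d) there are only
finitely many subgroups `F^0 CH^i(X)`; (e) `F^0 CH^i(X) = CH^i(X)` for all decompositions. The same
holds for the set of the self-dual decompositions. In any case `x` belongs to `F^0 CH^i(X)` for some
decomposition. So if the independence of `F^0 CH^i(X)` fails then *every* class which is not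
numerically trivial lies in `F^0` for some decompositions and not for others. The number of the
subgroups is then at least the number of elements of `CH^i(X) / F^0_π CH^i(X)`, for every
decomposition `π`.

Idea. Let `v ∈ CH^(d - i)(X)` and `α ∈ CH^i(X)`, let `π` be a decomposition and `Q` the sum of the
`π b`, `b > 2 i`. Conjugation by the exponential of `v × Q α` (or, in order to preserve self-duality,
of `v × Q α - Q α × v`, an Eichler transformation) gives a decomposition with
`F^0 CH^i(X) = {x | x - deg(v x) α ∈ F^0_π CH^i(X)}`.
-/

open CategoryTheory AlgebraicGeometry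

set_option autoImplicit false

universe u v w

namespace Pool.Agent.Results.MP_10f4af_ag.ZeroOneLaw

open Pool.Agent.H914 Pool.Agent.W492.BB Pool.Agent.TH133 Pool.Agent.H92.ZO

/-- The zero-one law for the step `F^0` of the Chow-Kunneth filtrations of one variety. -/
theorem result {k : Type u} [Field k] {𝒱 : VarClass k} (C : TheoryData.{u, v, 0} 𝒱 ℚ)
    [IsChowProj C] {K : Type w} [Field K] (H : WeilTheoryData.{u, v, w} C K) [IsWeilProj H]
    (X : 𝒱.Obj) (i : ℕ) (x : C.A X) (hx : NumNontrivial H i x) :
    ZeroOneLaw H X i x ∧ SelfDualZeroOneLaw H X i x ∧ ManySteps H X i x := by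
  refine ⟨?_, (flexible_SD (H := H) X i).tfae hx, fun π hπ => ?_⟩
  · have h := (flexible_CK (H := H) X i).tfae hx
    unfold ZeroOneLaw
    tfae_have 1 ↔ 3 := h.out 0 1
    tfae_have 3 ↔ 4 := h.out 1 2
    tfae_have 4 ↔ 5 := h.out 2 3
    tfae_have 1 → 2 := fun h π π' hπ hπ' _ => h π π' hπ hπ'
    tfae_have 2 → 5 := fun h π hπ => all_of_elementary hx h hπ
    tfae_finish
  · exact ⟨(flexible_CK (H := H) X i).exists_mem hx hπ,
      fun hsd => (flexible_SD (H := H) X i).exists_mem hx ⟨hπ, hsd⟩,
      (flexible_CK (H := H) X i).family hx hπ⟩

end Pool.Agent.Results.MP_10f4af_ag.ZeroOneLaw
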